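import Pool.Agent.TH181.Nag.Tri
import Pool.Agent.TH176.Nag.Main

/-! Nagata's inequality at very general points for every `n ≥ 10`, from the key lemma. -/

namespace Pool.Agent.TH181.NG

open Finset Pool.Agent.TH176.Nag Pool.Agent.TH181.Nag

/-- the key lemma of helper603: degeneration of the plane to a triangle with an arbitrary real slope -/
def KeyT : Prop := ∀ (ι : Type) (w : ι → ℕ) (d : ℕ) (τ : ℝ), 0 < τ → τ < 1 →
  Emp w (Reg (-((d : ℝ) * (1 + τ))) (d * (2 - τ)) (3 * (1 + τ)) (3 * (2 - τ))) →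
  Emp w {m : ℤ × ℤ | 0 ≤ m.1 ∧ 0 ≤ m.2 ∧ m.1 + m.2 ≤ (d : ℤ)}

/-- the square root of a number which is not a square is irrational -/
theorem irr_sq {n : ℕ} (hn : ¬ IsSquare n) {d S : ℕ} (hd : 0 < d) (h : (S : ℝ) = d * √(n : ℝ)) : False := by
  have h1 : (S : ℝ) ^ 2 = (d : ℝ) ^ 2 * n := by
    rw [h, mul_pow, Real.sq_sqrt (Nat.cast_nonneg _)]
  have h2 : S ^ 2 = d ^ 2 * n := by exact_mod_cast h1
  have h4 : d ∣ S := (Nat.pow_dvd_pow_iff (by norm_num)).1 ⟨n, h2⟩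
  obtain ⟨c, hc⟩ := h4
  apply hn
  refine ⟨c, ?_⟩
  have h5 : 0 < d ^ 2 := by positivity
  have h6 : d ^ 2 * n = d ^ 2 * (c * c) := by
    rw [← h2, hc]; ring
  exact Nat.eq_of_mul_eq_mul_left h5 h6

/-- plane systems with `√n d < ∑ w` are empty -/
theorem weak (key : KeyT) {ι : Type} [Fintype ι] (hn : 9 ≤ Fintype.card ι) {w : ι → ℕ} {d : ℕ}
    (hd : 0 < d) (h : √(Fintype.card ι) * (d : ℝ) < ∑ i, (w i : ℝ)) :
    Emp w {m : ℤ × ℤ | 0 ≤ m.1 ∧ 0 ≤ m.2 ∧ m.1 + m.2 ≤ (d : ℤ)} := by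
  set s : ℝ := √(Fintype.card ι) with hs
  have hs2 : s ^ 2 = Fintype.card ι := Real.sq_sqrt (Nat.cast_nonneg _)
  have hn' : (9 : ℝ) ≤ Fintype.card ι := by exact_mod_cast hn
  have hs3 : 3 ≤ s := by
    rw [hs]
    apply Real.le_sqrt_of_sq_le
    linarith
  set K : ℤ := ⌊3 * s⌋ - 14 with hK
  set τ : ℝ := (3 * s - 9 - K) / 3 - 1 with hτ
  have hK' : (K : ℝ) = (⌊3 * s⌋ : ℝ) - 14 := by rw [hK]; push_cast; ring
  have hf1 := Int.floor_le (3 * s)
  have hf2 := Int.lt_floor_add_one (3 * s)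
  have h0 : 0 < τ := by rw [hτ, hK']; linarith
  have h1 : τ < 1 := by rw [hτ, hK']; linarith
  apply key ι w d τ h0 h1
  have hps : PS s ι (3 * (1 + τ)) (3 * (2 - τ)) := by
    refine PS.shear K ?_
    have e1 : 3 * (1 + τ) + K = 3 * s - 9 := by rw [hτ]; ring
    have e2 : 3 * (2 - τ) - K = 18 - 3 * s := by rw [hτ]; ring
    rw [e1, e2]
    refine PS.stepA 1 9 isCoprime_one_left (by norm_num) (by push_cast; linarith) (by push_cast; linarith)
      (by linarith) ?_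
    have e3 : ((1 : ℤ) : ℝ) * (((1 : ℤ) : ℝ) * (3 * s - 9) + ((9 : ℤ) : ℝ)) = 3 * s := by push_cast; ring
    have e4 : (((9 : ℤ) : ℝ) - ((1 : ℤ) : ℝ) * (18 - 3 * s)) * (((1 : ℤ) : ℝ) * (3 * s - 9) + ((9 : ℤ) : ℝ)) /
        (3 * s - 9 + (18 - 3 * s)) = s ^ 2 - 3 * s := by
      have : (3 * s - 9 + (18 - 3 * s)) = 9 := by ring
      rw [this]
      push_cast
      ring
    rw [e3, e4, hs2]
    refine PS.final (by linarith) ?_ (by ring)
    rw [← hs2]
    nlinarith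
  have hd' : (0 : ℝ) < d := by exact_mod_cast hd
  have h2 := hps w d hd' h (-((d : ℝ) * (1 + τ)))
  have e5 : √(3 * (1 + τ) + 3 * (2 - τ)) = 3 := by
    have : 3 * (1 + τ) + 3 * (2 - τ) = 3 ^ 2 := by ring
    rw [this]
    exact Real.sqrt_sq (by norm_num)
  rw [e5] at h2
  have e6 : -((d : ℝ) * (1 + τ)) + d * 3 = d * (2 - τ) := by ring
  rwa [e6] at h2

/-- for `k ^ 2 ≥ 16` points also plane systems with `k d = ∑ w` are empty -/
theorem strict (key : KeyT) {ι : Type} [Fintype ι] {k : ℕ} (hk : 4 ≤ k) (hn : Fintype.card ι = k ^ 2)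
    {w : ι → ℕ} {d : ℕ} (hd : 0 < d) (h : (k : ℝ) * (d : ℝ) ≤ ∑ i, (w i : ℝ)) :
    Emp w {m : ℤ × ℤ | 0 ≤ m.1 ∧ 0 ≤ m.2 ∧ m.1 + m.2 ≤ (d : ℤ)} := by
  have hk' : (4 : ℝ) ≤ k := by exact_mod_cast hk
  have hd' : (1 : ℝ) ≤ d := by exact_mod_cast hd
  -- a small number
  obtain ⟨κ, hκ0, hκ1⟩ : ∃ κ : ℝ, 0 < κ ∧ κ * (2 * k * d) < 1 := by
    refine ⟨1 / (2 * k * d + 1), by positivity, ?_⟩
    rw [div_mul_eq_mul_div, one_mul, div_lt_one (by positivity)]
    linarith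
  have hκ2 : κ < 1 / 8 := by
    have h1 : 8 * κ ≤ κ * (2 * k * d) := by
      have : (4 : ℝ) ≤ k * d := by nlinarith
      nlinarith
    linarith
  set τ : ℝ := 1 / 3 - κ with hτ
  have h0 : 0 < τ := by rw [hτ]; linarith
  have h1 : τ < 1 := by rw [hτ]; linarith
  apply key ι w d τ h0 h1
  -- shear
  set K : ℤ := 3 * (k : ℤ) - 13 with hK
  have hK' : (K : ℝ) = 3 * k - 13 := by rw [hK]; push_cast; ring
  have hsh : Emp w (Reg (-((d : ℝ) * (1 + τ))) (d * (2 - τ)) (3 * k - 9 - 3 * κ) (18 - 3 * k + 3 * κ)) := by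
    refine Emp_regA (β' := (k - κ) * (3 * k - 3 * κ) * (d / 3) * 0 + (-((d : ℝ) * (1 + τ)) + d * (k - κ)))
      (α' := -((d : ℝ) * (1 + τ))) (μ' := 3 * k - 3 * κ) (ν' := (3 * k - 9 - 3 * κ) * (3 * k - 3 * κ) / 9)
      1 9 1 0 (by norm_num) (by norm_num) (by push_cast; linarith) (by push_cast; linarith) (by linarith) ?_ ?_ ?_ ?_ ?_
    · push_cast; ring
    · rw [hτ]; push_cast; ring
    · push_cast; ring
    · push_cast; ring
    -- the final case
    set c : ℤ := ⌊(-(4 * d) / 3 : ℝ)⌋ with hc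
    have hc1 : (c : ℝ) ≤ -(4 * d) / 3 := Int.floor_le _
    have hc2 : (-(4 * (d : ℝ))) / 3 ≤ c + 2 / 3 := by
      have h2 : (-(4 * d) / 3 : ℝ) < c + 1 := Int.lt_floor_add_one _
      have h3 : (-(4 * (d : ℝ))) < 3 * c + 3 := by linarith
      have h4 : (-(4 * (d : ℤ))) < 3 * c + 3 := by exact_mod_cast h3
      have h5 : (-(4 * (d : ℤ))) ≤ 3 * c + 2 := by omega
      have h6 : (-(4 * (d : ℝ))) ≤ 3 * c + 2 := by exact_mod_cast h5
      linarith
    have hfin : Emp w (Reg ((c : ℝ) + 1) (c + k * d) (3 * k) ((k : ℝ) ^ 2 - 3 * k)) := by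
      apply Pool.Agent.TH819.NagA.Emp_final w _ _ _ _ (by positivity) (by nlinarith)
      · rw [hn]; push_cast; ring
      · linarith
    refine hfin.mono ?_
    rintro ⟨a, j⟩ ⟨hj, hl, hr⟩
    simp only at hj hl hr
    have hj' : (0 : ℝ) ≤ j := by exact_mod_cast hj
    rw [hτ] at hl hr
    -- the rows above d / 3 are empty
    have hjd : 3 * (j : ℝ) < d := by
      by_contra hcon
      rw [not_lt] at hcon
      have h2 : (3 * k - 3 * κ) * (j : ℝ) + (3 * k - 9 - 3 * κ) * (3 * k - 3 * κ) / 9 * j ≤ d * (k - κ) := by linarith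
      have h3 : (3 * k - 3 * κ) * (j : ℝ) + (3 * k - 9 - 3 * κ) * (3 * k - 3 * κ) / 9 * j = (k - κ) ^ 2 * j := by ring
      rw [h3] at h2
      have h4 : 0 < (k : ℝ) - κ := by linarith
      have h5 : (k - κ) * ((k - κ) * (j : ℝ)) ≤ (k - κ) * d := by nlinarith
      have h6 := le_of_mul_le_mul_left h5 h4
      have h7 : 3 < (k : ℝ) - κ := by linarith
      nlinarith
    refine ⟨hj, ?_, ?_⟩
    · -- left end
      have h2 : (c : ℝ) + 3 * k * j < a := by
        have h3 : 0 < κ * (d - 3 * j) := mul_pos hκ0 (by linarith)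
        nlinarith
      have h3 : c + 3 * (k : ℤ) * j < a := by exact_mod_cast h2
      have h4 : c + 3 * (k : ℤ) * j + 1 ≤ a := by omega
      have h5 : (c : ℝ) + 3 * k * j + 1 ≤ a := by exact_mod_cast h4
      simp only
      linarith
    · have h2 : (a : ℝ) < c + k * d - (k ^ 2 - 3 * k) * j + 1 := by
        have h3 : κ * (2 * k) * j < 1 / 3 := by nlinarith
        nlinarith [mul_nonneg hκ0.le hj', mul_nonneg (mul_nonneg hκ0.le hκ0.le) hj']
      have h3 : a < c + (k : ℤ) * d - ((k : ℤ) ^ 2 - 3 * k) * j + 1 := by exact_mod_cast h2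
      have h4 : a ≤ c + (k : ℤ) * d - ((k : ℤ) ^ 2 - 3 * k) * j := by omega
      simp only
      exact_mod_cast h4
  refine hsh.comap 1 K 0 1 0 0 (by norm_num) ?_
  rintro ⟨a, b⟩ ⟨hb, hl, hr⟩
  simp only at hb hl hr
  refine ⟨by simpa using hb, ?_, ?_⟩
  · simp only; push_cast; rw [hK']; rw [hτ] at hl ⊢; linarith
  · simp only; push_cast; rw [hK']; rw [hτ] at hr ⊢; linarith

section final
open MvPolynomial Pool.Agent.H932R5

/-- a form with too large multiplicities at independent points vanishes if the plane system of twice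
the degree and twice the multiplicities is empty -/
theorem eq_zero_of_Emp {n : ℕ} {v : Fin n → Fin 3 → ℂ} (hv0 : ∀ i, v i 0 ≠ 0)
    (hind : AlgebraicIndependent (⊥ : Subfield ℂ)
        (fun q : Fin n × Fin 2 => v q.1 q.2.succ / v q.1 0))
    {d : ℕ} {m : Fin n → ℕ} {F : MvPolynomial (Fin 3) ℂ} (hFd : F.IsHomogeneous d)
    (hE : Emp (fun i => 2 * m i) {m : ℤ × ℤ | 0 ≤ m.1 ∧ 0 ≤ m.2 ∧ m.1 + m.2 ≤ ((2 * d : ℕ) : ℤ)})
    (hm : ∀ i : Fin n, ∀ s : Fin 3 →₀ ℕ, (∑ j, s j) < m i →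
            MvPolynomial.coeff s
              (MvPolynomial.aeval
                (fun j : Fin 3 => (X j + MvPolynomial.C (v i j) : MvPolynomial (Fin 3) ℂ)) F) = 0) :
    F = 0 := by
  have hind' : AlgebraicIndependent ℚ (fun q : Fin n × Fin 2 => v q.1 q.2.succ / v q.1 0) :=
    hind.restrictScalars (algebraMap ℚ (⊥ : Subfield ℂ)).injective
  have hxy : AlgebraicIndependent ℚ (fun q : Fin n × Fin 2 =>
      ![(fun i => v i 1 / v i 0) q.1, (fun i => v i 2 / v i 0) q.1] q.2) := by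
    have e : (fun q : Fin n × Fin 2 => (![(fun i => v i 1 / v i 0) q.1, (fun i => v i 2 / v i 0) q.1] : Fin 2 → ℂ) q.2) =
        (fun q : Fin n × Fin 2 => v q.1 q.2.succ / v q.1 0) := by
      funext q
      obtain ⟨i, j⟩ := q
      fin_cases j <;> rfl
    rw [e]; exact hind'
  have hx : ∀ i, v i 1 / v i 0 ≠ 0 := fun i => hind'.ne_zero (i, 0)
  have hy : ∀ i, v i 2 / v i 0 ≠ 0 := fun i => hind'.ne_zero (i, 1)
  have hfin : ({m : ℤ × ℤ | 0 ≤ m.1 ∧ 0 ≤ m.2 ∧ m.1 + m.2 ≤ ((2 * d : ℕ) : ℤ)}).Finite := by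
    apply Set.Finite.subset (Set.finite_Icc ((0, 0) : ℤ × ℤ) (((2 * d : ℕ) : ℤ), ((2 * d : ℕ) : ℤ)))
    rintro ⟨a, b⟩ ⟨h1, h2, h3⟩
    simp only at h1 h2 h3
    rw [Set.mem_Icc, Prod.mk_le_mk, Prod.mk_le_mk]
    exact ⟨⟨h1, h2⟩, by omega, by omega⟩
  have key := Pool.Agent.TH15.Nag.Emp_generic hfin (fun m hm => ⟨hm.1, hm.2.1⟩) hE
    (x := fun i => v i 1 / v i 0) (y := fun i => v i 2 / v i 0) hxy
  have h0 := key (toL ℂ (deh ℂ 1 F ^ 2)).coeff (by
    apply toL_support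
    intro s hs
    rw [← map_pow] at hs
    have h2 := deh_mem (E := 1) (hFd.pow 2)
    rw [mem_mspan] at h2
    have h3 : Finsupp.degree s ≤ d * 2 := h2 s hs
    rw [Finsupp.degree_eq_sum, Fin.sum_univ_two] at h3
    omega) (by
    intro i
    refine LM_of_pt (hx i) (hy i) (P := fun j : Fin 2 => v i j.succ / v i 0) rfl rfl ?_
    rw [mul_comm 2 (m i), pow_mul]
    exact Ideal.pow_mem_pow (mem_pt_of_taylor (E := 1) (hv0 i) hFd (hm i)) 2)
  have h1 := toL_eq_zero h0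
  have h2 : deh ℂ 1 F = 0 := by
    by_contra hne
    exact pow_ne_zero 2 hne h1
  exact deh_inj (E := 1) hFd h2

/-- Nagata's inequality for every `n ≥ 10` -/
theorem nagata (key : KeyT) {n : ℕ} (hn : 9 < n) {v : Fin n → Fin 3 → ℂ} (hv0 : ∀ i, v i 0 ≠ 0)
    (hind : AlgebraicIndependent (⊥ : Subfield ℂ)
        (fun q : Fin n × Fin 2 => v q.1 q.2.succ / v q.1 0))
    {d : ℕ} {m : Fin n → ℕ} {F : MvPolynomial (Fin 3) ℂ} (hF : F ≠ 0) (hd : 0 < d)
    (hFd : F.IsHomogeneous d)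
    (hm : ∀ i : Fin n, ∀ s : Fin 3 →₀ ℕ, (∑ j, s j) < m i →
            MvPolynomial.coeff s
              (MvPolynomial.aeval
                (fun j : Fin 3 => (X j + MvPolynomial.C (v i j) : MvPolynomial (Fin 3) ℂ)) F) = 0) :
    ∑ i, (m i : ℝ) < d * Real.sqrt (n : ℝ) := by
  by_contra hcon
  rw [not_lt] at hcon
  apply hF
  by_cases hsq : IsSquare n
  · obtain ⟨k, hk⟩ := hsq
    have hk4 : 4 ≤ k := by
      by_contra h
      have h1 : k ≤ 3 := by omega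
      have h2 : k * k ≤ 3 * 3 := Nat.mul_le_mul h1 h1
      omega
    have hs : Real.sqrt (n : ℝ) = k := by
      rw [hk]; push_cast
      exact Real.sqrt_mul_self (Nat.cast_nonneg k)
    rw [hs] at hcon
    refine eq_zero_of_Emp hv0 hind hFd ?_ hm
    apply strict key hk4 (by rw [Fintype.card_fin, hk, sq]) (by omega)
    push_cast
    rw [← mul_sum]
    linarith
  · have hlt : (d : ℝ) * Real.sqrt (n : ℝ) < ∑ i, (m i : ℝ) := by
      refine lt_of_le_of_ne hcon ?_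
      intro heq
      apply irr_sq hsq hd (S := ∑ i, m i)
      rw [heq]
      push_cast
      rfl
    refine eq_zero_of_Emp hv0 hind hFd ?_ hm
    apply weak key (by rw [Fintype.card_fin]; omega) (by omega)
    rw [Fintype.card_fin]
    push_cast
    rw [← mul_sum]
    linarith

end final

end Pool.Agent.TH181.NG
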